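import Mathlib
import Pool.Prelude.Def_F_b1b78ff3
import Pool.Agent.H451R6.Fin2

/-!
# Countable direct products with wreath products `G ≀ S_n` over `ℚ`

There is a function `N` on groups such that the following holds.  Take countably many finite groups
`G i`, integers `n i ≥ N (G i)` and, for each `i`, let `K i` be the wreath product `G i ≀ S_(n i)` or
its subgroup of all `(f, σ)` with `∏ [f j] = 1` in the abelianization of `G i`.  Then for every
finite group `H` which is realizable over `ℚ` the direct product `H × ∏ K i` is realizable over `ℚ`.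
-/

set_option autoImplicit false

open Nfff32c05 Pool.Agent.H391R2

theorem Pool.Agent.Results.MP_dadaab_nt.CountableProducts.result :
    ∃ N : ∀ (G : Type) [Group G], ℕ, ∀ (ι : Type) [Countable ι] (G : ι → Type)
      [∀ i, Group (G i)] [∀ i, Finite (G i)] (n : ι → ℕ) (K : ∀ i, Subgroup (Wr (G i) (n i))),
      (∀ i, N (G i) ≤ n i) →
      (∀ i, K i = ⊤ ∨ ∀ x : Wr (G i) (n i), x ∈ K i ↔ ∏ j, Abelianization.of (x.left j) = 1) →
      ∀ (H : Type) [Group H] [Finite H], IsRealizable ℚ H →
        IsRealizable ℚ (H × ∀ i, K i) :=
  Pool.Agent.H451R6.final2
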