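import Mathlib
import Pool.Prelude.Def_F_b1b78ff3
import Pool.Agent.H49R3.SC.Field4
import Pool.Agent.H391R2.T4.Abl

/-!
# Hilbertian algebraic extensions of `ℚ` of degree `ℓ^∞` over which every finite group is realizable

For every infinite set `D` of positive integers (for example the powers of a prime `ℓ`) and every
finite Galois extension `L₀` of `ℚ` there is a tower `ℚ = E₀ ≤ E₁ ≤ …` of number fields with all
relative degrees `[E_{k+1} : E_k]` in `D`, whose union `E` is Hilbertian, linearly disjoint from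
`L₀`, and over which every finite group is realizable.
-/

set_option autoImplicit false

open Pool.Agent.H49R3.SC Nfff32c05

theorem Pool.Agent.Results.MP_dadaab_nt.TowerRat.result :
    ∀ D : Set ℕ, D.Infinite →
      ∀ L₀ : IntermediateField ℚ (AlgebraicClosure ℚ), FiniteDimensional ℚ L₀ → IsGalois ℚ L₀ →
        ∃ E : ℕ → IntermediateField ℚ (AlgebraicClosure ℚ),
          E 0 = ⊥ ∧ (∀ k, E k ≤ E (k + 1)) ∧ (∀ k, FiniteDimensional ℚ (E k)) ∧
          (∀ k, IntermediateField.relfinrank (E k) (E (k + 1)) ∈ D) ∧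
          (⨆ k, E k) ⊓ L₀ = ⊥ ∧
          (∀ (f : Polynomial (Polynomial (⨆ k, E k : IntermediateField ℚ (AlgebraicClosure ℚ)))),
            f.Monic → Irreducible f →
            ∀ g : Polynomial (⨆ k, E k : IntermediateField ℚ (AlgebraicClosure ℚ)), g ≠ 0 →
            ∃ a : (⨆ k, E k : IntermediateField ℚ (AlgebraicClosure ℚ)),
              g.eval a ≠ 0 ∧ Irreducible (f.map (Polynomial.evalRingHom a))) ∧
          ∀ {G : Type*} [Fintype G] [Group G],
            IsRealizable (⨆ k, E k : IntermediateField ℚ (AlgebraicClosure ℚ)) G := by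
  intro D hD L₀ hL₀ hL₀g
  have hac : IsAlgClosure ℚ (AlgebraicClosure ℚ) := by
    have h1 : ∀ (K : Type) [Field K], IsAlgClosure K (AlgebraicClosure K) :=
      fun K _ => inferInstance
    have h2 := h1 ℚ
    have e : (DivisionRing.toRatAlgebra : Algebra ℚ (AlgebraicClosure ℚ)) =
        AlgebraicClosure.instAlgebra ℚ := Subsingleton.elim _ _
    rw [e]
    exact h2
  have hcount : Countable (AlgebraicClosure ℚ) := by
    have h1 := Algebra.IsAlgebraic.cardinalMk_le_max ℚ (AlgebraicClosure ℚ)
    rw [← Cardinal.mk_le_aleph0_iff]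
    refine h1.trans ?_
    exact max_le (Cardinal.mk_le_aleph0_iff.2 inferInstance) le_rfl
  obtain ⟨E, h1, h2, h3, h4, h5, h6, h7⟩ := field_tower (K := ℚ) (Ω := AlgebraicClosure ℚ)
    inferInstance Pool.Agent.H391R2.T4.hilb_rat D hD L₀ hL₀ hL₀g
  refine ⟨E, h1, h2, h3, h4, h5, ?_, ?_⟩
  · generalize (⨆ k, E k) = T at h6 ⊢
    intro f hfm hfi g hg
    have hsep : (f.map (algebraMap (Polynomial T) (FractionRing (Polynomial T)))).Separable := by
      have h1 := (hfm.irreducible_iff_irreducible_map_fraction_map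
        (K := FractionRing (Polynomial T))).1 hfi
      have hc0 : CharZero T := inferInstance
      have hc1 : CharZero (Polynomial T) := inferInstance
      have hc : CharZero (FractionRing (Polynomial T)) := inferInstance
      exact h1.separable
    exact h6 f hfm hfi hsep g hg
  · intro G _ _
    generalize (⨆ k, E k) = T at h7 ⊢
    have halg : Algebra.IsAlgebraic T (AlgebraicClosure ℚ) :=
      Algebra.IsAlgebraic.tower_top (K := ℚ) T
    have hacT : IsAlgClosure T (AlgebraicClosure ℚ) := ⟨IsAlgClosure.isAlgClosed ℚ, halg⟩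
    have hsub : Subsingleton (T ≃ₐ[T] T) := inferInstance
    obtain ⟨F, i1, i2, i3, i4, -, hg, γ, -⟩ := ep_field (T := T) (Ω := AlgebraicClosure ℚ)
      inferInstance h7 T (Shrink.{0} G) 1 1 (fun x => Subsingleton.elim _ _)
    let e : Shrink.{0} G ≃* G := Shrink.mulEquiv
    exact ⟨⟨⟨F, i1, i2, hg, e.symm.trans γ.symm⟩⟩⟩
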