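import Mathlib
import Pool.Prelude.Def_F_b1b78ff3
import Pool.Agent.H178R3.IgF

/-!
# Countable products of wreath products `G ≀ S_n` and a given realizable group, over number fields

There is a bound `n₀ G` for every finite group `G` such that the following holds. Take countably
many finite groups `G i`, integers `n i ≥ n₀ (G i)` and for each `i` let `K i` be the wreath product
`G i ≀ S_(n i)` or its subgroup of all `(f, σ)` with `∏ [f j] = 1` in the abelianization of `G i`.
Then for every number field `E` and every finite group `H` realizable over `E` the direct product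
`H × ∏ i, K i` is the Galois group of a Galois extension of `E`.
-/

set_option autoImplicit false

open Nfff32c05 Pool.Agent.H391R2

theorem Pool.Agent.Results.MP_dadaab_nt.WreathProduct.result :
    ∃ n₀ : ∀ (G : Type) [Group G] [Finite G], ℕ,
      ∀ (ι : Type) [Countable ι] (G : ι → Type) [∀ i, Group (G i)] [∀ i, Finite (G i)]
        (n : ι → ℕ) (K : ∀ i, Subgroup (Wr (G i) (n i))), (∀ i, n₀ (G i) ≤ n i) →
        (∀ i, K i = ⊤ ∨ ∀ x : Wr (G i) (n i), x ∈ K i ↔
          ∏ j, Abelianization.of (x.left j) = 1) →
        ∀ (E : Type) [Field E] [NumberField E] (H : Type) [Group H] [Finite H],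
          IsRealizable E H → IsRealizable E (H × ∀ i, K i) :=
  Pool.Agent.H178R3.Ig.main_ker
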