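import Mathlib
import Pool.Prelude.Def_F_b1b78ff3
import Pool.Agent.H789R5.IG.Prod

/-!
# Products of wreath products with realizable groups, over all number fields

For every finite group `G` and all large `n` (depending only on `G`), for all number fields `E` and
all finite groups `H` which are realizable over `E`, the group `(G ≀ S_n) × H` is realizable over
`E`.
-/

set_option autoImplicit false

open Nfff32c05 Pool.Agent.H391R2 NumberField

namespace Pool.Agent.Results.MP_dadaab_nt.WreathTimes

theorem result : ∀ (G : Type) [Group G] [Finite G], ∃ n₀ : ℕ, ∀ n ≥ n₀,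
    ∀ (E : Type) [Field E] [NumberField E] (H : Type) [Group H] [Finite H],
      IsRealizable E H → IsRealizable E (((Fin n → G) ⋊[mulAutArrow] Equiv.Perm (Fin n)) × H) := by
  intro G _ _
  obtain ⟨n₀, hn₀⟩ := R1.wreath_local G
  refine ⟨n₀, fun n hn E _ _ H _ _ hH => ?_⟩
  obtain ⟨⟨M, i1, i2, i3, e⟩⟩ := hH.exists_realization
  have hfin : Finite (M ≃ₐ[E] M) := Finite.of_equiv H e.toEquiv
  have hfd : FiniteDimensional E M := IsGalois.finiteDimensional_of_finite E M
  have hc : CharZero M := charZero_of_injective_algebraMap (algebraMap E M).injective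
  have hfdQ : FiniteDimensional ℚ M := FiniteDimensional.trans ℚ E M
  have hM : NumberField M := { to_charZero := hc, to_finiteDimensional := hfdQ }
  obtain ⟨L, j1, j2, j3, ⟨eL⟩, -, hsplit, -⟩ := (hn₀ n hn).2 (discr M).natAbs.primeFactors
  have hcop := Pool.Agent.H789R5.IG.coprime_discr L M hsplit
  have halg : Algebra.IsAlgebraic E (AlgebraicClosure M) :=
    Algebra.IsAlgebraic.trans E M (AlgebraicClosure M)
  have hcΩ : CharZero (AlgebraicClosure M) :=
    charZero_of_injective_algebraMap (algebraMap M (AlgebraicClosure M)).injective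
  let φ₀ : L →+* AlgebraicClosure M :=
    ((IsAlgClosed.lift (R := ℚ) (S := L) (M := AlgebraicClosure M) :
      L →ₐ[ℚ] AlgebraicClosure M) : L →+* AlgebraicClosure M)
  obtain ⟨eN⟩ := Pool.Agent.H789R5.IG.group_NN (E := E) (M := M) hcop φ₀.toRatAlgHom
  exact ⟨⟨⟨Pool.Agent.H789R5.IG.NN E M φ₀.toRatAlgHom, inferInstance, inferInstance,
    Pool.Agent.H789R5.IG.isGalois_NN (E := E) (M := M) φ₀.toRatAlgHom,
    (MulEquiv.prodCongr eL e).trans eN.symm⟩⟩⟩

end Pool.Agent.Results.MP_dadaab_nt.WreathTimes
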